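import Mathlib

namespace Pool.Agent.H.MP_3e3c2c_co

open Finset

variable {p d : ℕ} [Fact p.Prime]

abbrev Z (p d : ℕ) := Fin d → ZMod p

def cv (x : ZMod p) : Z p d := fun i => x ^ i.val

noncomputable def ee (ξ v : Z p d) : ℂ := ZMod.stdAddChar (∑ i, ξ i * v i)

lemma orth1 (b : ZMod p) : ∑ x : ZMod p, ZMod.stdAddChar (x * b) = if b = 0 then (p : ℂ) else 0 := by
  rw [AddChar.sum_mulShift b (ZMod.isPrimitive_stdAddChar p), ZMod.card]
  split_ifs <;> simp

lemma orth (v : Z p d) : ∑ ξ, ee ξ v = if v = 0 then (p : ℂ) ^ d else 0 := by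
  have : ∀ ξ, ee ξ v = ∏ i, ZMod.stdAddChar (ξ i * v i) := fun ξ => by
    unfold ee
    induction (univ : Finset (Fin d)) using Finset.cons_induction with
    | empty => simp
    | cons a s h ih => rw [sum_cons, prod_cons, AddChar.map_add_eq_mul, ih]
  simp only [this]
  rw [← Fintype.piFinset_univ, ← prod_univ_sum (fun _ => univ) fun i x => ZMod.stdAddChar (x * v i)]
  simp only [orth1]
  split_ifs with h
  · simp [h]
  · obtain ⟨i, hi⟩ := Function.ne_iff.1 h
    exact prod_eq_zero (mem_univ i) (if_neg hi)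

lemma ee_add (ξ v w : Z p d) : ee ξ (v + w) = ee ξ v * ee ξ w := by
  simp [ee, mul_add, sum_add_distrib, AddChar.map_add_eq_mul]

noncomputable def hat (f : Z p d → ℝ) (ξ : Z p d) : ℂ := ∑ u, f u * ee ξ u

lemma conv (f g : Z p d → ℝ) (w : Z p d) :
    ∑ ξ, hat f ξ * (starRingEnd ℂ) (hat g ξ) * ee ξ w = (p : ℂ) ^ d * ∑ u, (f u * g (u + w) : ℝ) := by
  have : ∀ ξ, hat f ξ * (starRingEnd ℂ) (hat g ξ) * ee ξ w =
      ∑ u, ∑ v, f u * g v * ee ξ (u + w - v) := fun ξ => by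
    simp only [hat, map_sum, sum_mul, mul_sum]
    rw [sum_comm]
    refine sum_congr rfl fun u _ => sum_congr rfl fun v _ => ?_
    have : (starRingEnd ℂ) (ee ξ v) = ee ξ (-v) := by
      simp [ee, ← AddChar.map_neg_eq_conj]
    rw [map_mul, this, sub_eq_add_neg, ee_add, ee_add, Complex.conj_ofReal]; ring
  simp only [this]
  rw [sum_comm]
  push_cast
  rw [mul_sum]
  refine sum_congr rfl fun u _ => ?_
  rw [sum_comm]
  simp only [← mul_sum, orth, sub_eq_zero]
  simp [mul_comm]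

lemma pars (f : Z p d → ℝ) (h : ∀ u, f u ^ 2 ≤ 1) : ∑ ξ, ‖hat f ξ‖ ^ 2 ≤ (p : ℝ) ^ d * p ^ d := by
  have := conv f f 0
  simp only [ee, Pi.zero_apply, mul_zero, sum_const_zero, AddChar.map_zero_eq_one, mul_one,
    Complex.mul_conj, add_zero, Complex.normSq_eq_norm_sq] at this
  have : ∑ ξ, ‖hat f ξ‖ ^ 2 = (p : ℝ) ^ d * ∑ u, f u * f u := by exact_mod_cast this
  rw [this]
  gcongr
  refine (sum_le_card_nsmul _ _ 1 fun u _ => by nlinarith [h u]).trans ?_
  simp

lemma roots (ξ : Z p d) (h : ξ ≠ 0) : #{x : ZMod p | ∑ i, ξ i * cv x i = 0} ≤ d := by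
  by_contra c
  obtain ⟨s, hs, h1⟩ := exists_subset_card_eq (not_le.1 c).le
  let e := (s.equivFinOfCardEq h1).symm
  exact h (Matrix.eq_zero_of_forall_index_sum_mul_pow_eq_zero (f := fun j => (e j).1)
    (Subtype.val_injective.comp e.injective) fun j => (mem_filter.1 (hs (e j).2)).2)

lemma mix (f g : Z p d → ℝ) (hf : ∀ u, f u ^ 2 ≤ 1) (hg : ∀ u, g u ^ 2 ≤ 1) (h0 : ∑ u, f u = 0) :
    ∑ x : ZMod p, ∑ y : ZMod p, ∑ u, f u * g (u + y • cv x) ≤ d * p * p ^ d := by
  have P : (0 : ℝ) < p := by exact_mod_cast (Fact.out : p.Prime).pos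
  have a : ∀ ξ : Z p d, ∑ x : ZMod p, ∑ y : ZMod p, ee ξ (y • cv x) =
      p * (#{x : ZMod p | ∑ i, ξ i * cv x i = 0} : ℕ) := fun ξ => by
    have : ∀ x y : ZMod p, ee ξ (y • cv x) = ZMod.stdAddChar (y * ∑ i, ξ i * cv x i) :=
      fun x y => by simp [ee, mul_sum, mul_left_comm]
    simp only [this, orth1]
    rw [← sum_filter]; simp [mul_comm]
  have b : (((p : ℝ) ^ d * ∑ x : ZMod p, ∑ y : ZMod p, ∑ u, f u * g (u + y • cv x) : ℝ) : ℂ) =
      ∑ ξ, hat f ξ * (starRingEnd ℂ) (hat g ξ) *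
        (p * (#{x : ZMod p | ∑ i, ξ i * cv x i = 0} : ℕ)) := by
    symm
    calc _ = ∑ ξ, ∑ x : ZMod p, ∑ y : ZMod p,
          hat f ξ * (starRingEnd ℂ) (hat g ξ) * ee ξ (y • cv x) := by simp only [← a, mul_sum]
      _ = ∑ x : ZMod p, ∑ y : ZMod p, ∑ ξ,
          hat f ξ * (starRingEnd ℂ) (hat g ξ) * ee ξ (y • cv x) := by
        rw [sum_comm]; exact sum_congr rfl fun x _ => sum_comm
      _ = _ := by simp only [conv, ← mul_sum]; push_cast; rfl
  have c := congrArg norm b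
  rw [Complex.norm_real] at c
  refine le_of_mul_le_mul_left (((le_abs_self _).trans c.le).trans ((norm_sum_le _ _).trans
    ((sum_le_sum (g := fun ξ => (‖hat f ξ‖ ^ 2 + ‖hat g ξ‖ ^ 2) * (p * d / 2))
      fun ξ _ => ?_).trans ?_))) (pow_pos P d)
  · by_cases h : ξ = 0
    · have : hat f ξ = 0 := by
        simp only [hat, h, ee, Pi.zero_apply, zero_mul, sum_const_zero, AddChar.map_zero_eq_one,
          mul_one]
        exact_mod_cast h0
      simp only [this, zero_mul, norm_zero]; positivity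
    · have : (#{x : ZMod p | ∑ i, ξ i * cv x i = 0} : ℝ) ≤ d := by exact_mod_cast roots ξ h
      simp only [norm_mul, Complex.norm_conj, Complex.norm_natCast]
      calc _ ≤ (‖hat f ξ‖ ^ 2 + ‖hat g ξ‖ ^ 2) / 2 * (p * d) := by
            gcongr; nlinarith [sq_nonneg (‖hat f ξ‖ - ‖hat g ξ‖)]
        _ = _ := by ring
  · rw [← sum_mul, sum_add_distrib]
    have := pars f hf
    have := pars g hg
    have : (0 : ℝ) ≤ p * d / 2 := by positivity
    nlinarith

/-- zone of the base point `ω` in the partition `γ` -/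
def zn (γ : ZMod p) (ω : Z p d × ZMod p × ZMod p) : Z p d := ω.1 + (γ * ω.2.2) • cv ω.2.1

lemma bad (D : Finset (ZMod p × Z p d)) (hD : 4 * (#D : ℝ) ≤ p * p ^ d) :
    (#{ω : Z p d × ZMod p × ZMod p | 2 * #{γ | (γ, zn γ ω) ∉ D} < p} : ℝ) * p ≤
      16 * (1 + d) * (p ^ d * p ^ 2) := by
  have P : (0 : ℝ) < p := by exact_mod_cast (Fact.out : p.Prime).pos
  let ε : ZMod p → ℝ := fun γ => #{z | (γ, z) ∈ D} / p ^ d
  let f : ZMod p → Z p d → ℝ := fun γ z => (if (γ, z) ∈ D then 1 else 0) - ε γ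
  have cz : Fintype.card (Z p d) = p ^ d := by simp
  have e0 : ∀ γ, 0 ≤ ε γ := fun γ => by positivity
  have e1 : ∀ γ, ε γ ≤ 1 := fun γ => (div_le_one (by positivity)).2 (by
    exact_mod_cast (card_le_univ _).trans cz.le)
  have f1 : ∀ γ z, f γ z ^ 2 ≤ 1 := fun γ z => by
    simp only [f]; split_ifs <;> nlinarith [e0 γ, e1 γ]
  have f0 : ∀ γ, ∑ z, f γ z = 0 := fun γ => by
    simp only [f, ε, sum_sub_distrib, sum_boole, sum_const, card_univ, cz, nsmul_eq_mul]
    push_cast; field_simp; ring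
  have se : ∑ γ, ε γ ≤ p / 4 := by
    have : ∑ γ, (#{z | (γ, z) ∈ D} : ℝ) = #D := by
      simp only [← sum_boole]
      rw [← Fintype.sum_prod_type' fun γ z => if (γ, z) ∈ D then (1 : ℝ) else 0]; simp
    simp only [ε, ← sum_div, this]
    rw [div_le_iff₀ (by positivity)]; linarith
  have pr : ∀ γ γ', ∑ ω, f γ (zn γ ω) * f γ' (zn γ' ω) ≤
      (if γ' = γ then (p : ℝ) ^ d * p ^ 2 else 0) + d * p * p ^ d := fun γ γ' => by
    split_ifs with h
    · subst h
      refine (sum_le_card_nsmul _ _ 1 fun ω _ => by nlinarith [f1 γ' (zn γ' ω)]).trans ?_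
      simp [cz, sq]; positivity
    · rw [zero_add]
      refine le_of_eq_of_le ?_ (mix (f γ) (f γ') (f1 γ) (f1 γ') (f0 γ))
      rw [Fintype.sum_prod_type_right, Fintype.sum_prod_type]
      refine sum_congr rfl fun x _ => Fintype.sum_equiv (Equiv.mulLeft₀ _ (sub_ne_zero.2 h)) _ _
        fun y => Fintype.sum_equiv (Equiv.addRight ((γ * y) • cv x)) _ _ fun u => ?_
      simp only [zn, Equiv.coe_addRight, Equiv.mulLeft₀_apply, add_assoc, ← add_smul]
      congr 4; ring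
  have m2 : ∑ ω, (∑ γ, f γ (zn γ ω)) ^ 2 ≤ (1 + d) * p * (p ^ d * p ^ 2) := by
    simp only [sq, sum_mul_sum]
    rw [sum_comm]
    refine (sum_le_sum fun γ _ => (sum_comm.le.trans (sum_le_sum fun γ' _ => pr γ γ'))).trans ?_
    simp [sum_add_distrib, ZMod.card]
    exact le_of_eq (by ring)
  have := (card_nsmul_le_sum _ (fun ω => (∑ γ, f γ (zn γ ω)) ^ 2) ((p / 4) ^ 2)
    fun ω (hω : ω ∈ ({ω | 2 * #{γ | (γ, zn γ ω) ∉ D} < p} : Finset _)) => by
      have a := card_filter_add_card_filter_not (s := univ) fun γ => (γ, zn γ ω) ∈ D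
      have b := (mem_filter.1 hω).2
      rw [card_univ, ZMod.card] at a
      have c : (p : ℝ) ≤ 2 * #{γ | (γ, zn γ ω) ∈ D} := by exact_mod_cast (by omega)
      simp only [f, sum_sub_distrib, sum_boole]
      gcongr; linarith).trans
    ((sum_le_univ_sum_of_nonneg fun _ => sq_nonneg _).trans m2)
  rw [nsmul_eq_mul] at this
  nlinarith

end Pool.Agent.H.MP_3e3c2c_co
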