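import Mathlib

namespace Pool.Agent.H.MP_3e3c2c_co

open Finset Classical

/-- Efron–Stein (copied from helper1's library) -/
theorem var {κ : Type} [Fintype κ] [Nonempty κ] (m : ℕ) : ∀ f : (Fin m → κ) → ℝ,
    (∀ x i a, f x ≤ f (Function.update x i a) + 1) → ∀ μ : ℝ,
    ∑ x, f x = μ * (Fintype.card κ : ℝ) ^ m →
    ∑ x, (f x - μ) ^ 2 ≤ m * (Fintype.card κ : ℝ) ^ m := by
  induction m with
  | zero =>
    intro f _ μ h
    simp only [Finset.univ_unique, Finset.sum_singleton, pow_zero, mul_one] at h ⊢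
    simp [h]
  | succ m ih =>
    intro f hf μ h
    set N : ℝ := (Fintype.card κ : ℝ) with hN
    have N0 : 0 < N := by rw [hN]; exact_mod_cast Fintype.card_pos
    have sw : ∀ F : (Fin (m + 1) → κ) → ℝ,
        ∑ x, F x = ∑ y : Fin m → κ, ∑ a : κ, F (Fin.cons a y) := by
      intro F
      rw [Finset.sum_comm, ← Fintype.sum_prod_type']
      exact (Fintype.sum_equiv (Fin.consEquiv fun _ => κ) _ _ (fun _ => rfl)).symm
    let g : (Fin m → κ) → ℝ := fun y => (∑ a : κ, f (Fin.cons a y)) / N
    have hg : ∀ y, ∑ a : κ, f (Fin.cons a y) = N * g y := fun y => by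
      simp only [g]; field_simp
    have h1 := ih g (fun y i b => by
      have : N * g y ≤ N * (g (Function.update y i b) + 1) := by
        rw [mul_add, ← hg, ← hg]
        calc _ ≤ ∑ a : κ, (f (Fin.cons a (Function.update y i b)) + 1) :=
            Finset.sum_le_sum fun a _ => by rw [Fin.cons_update]; exact hf _ _ _
          _ = _ := by rw [Finset.sum_add_distrib]; simp [hN]
      exact le_of_mul_le_mul_left this N0) μ (by
      rw [sw] at h
      simp only [hg] at h
      rw [← Finset.mul_sum, pow_succ] at h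
      exact mul_left_cancel₀ N0.ne' (by linarith))
    have h2 : ∀ y, ∑ a : κ, (f (Fin.cons a y) - μ) ^ 2 ≤ N + N * (g y - μ) ^ 2 := by
      intro y
      have b : ∀ a a' : κ, f (Fin.cons a y) ≤ f (Fin.cons a' y) + 1 := fun a a' => by
        have := hf (Fin.cons a y) 0 a'
        rwa [Fin.update_cons_zero] at this
      have c : ∀ a : κ, (f (Fin.cons a y) - g y) ^ 2 ≤ 1 := by
        intro a
        have u1 := Finset.sum_le_sum (s := univ) fun a' _ => b a a'
        have u2 := Finset.sum_le_sum (s := univ) fun a' _ => b a' a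
        rw [Finset.sum_add_distrib, hg] at u1
        rw [hg] at u2
        simp only [Finset.sum_const, Finset.card_univ, nsmul_eq_mul, ← hN] at u1 u2
        have v1 : f (Fin.cons a y) ≤ g y + 1 := le_of_mul_le_mul_left (by linarith) N0
        have v2 : g y ≤ f (Fin.cons a y) + 1 := le_of_mul_le_mul_left u2 N0
        nlinarith
      calc _ ≤ ∑ a : κ, (1 + 2 * (g y - μ) * f (Fin.cons a y) + (μ ^ 2 - g y ^ 2 +
            2 * (g y - μ) ^ 2 - 2 * (g y - μ) * (g y - μ) + g y ^ 2 - μ ^ 2 +
            (g y - μ) ^ 2 - 2 * (g y - μ) * g y)) :=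
          Finset.sum_le_sum fun a _ => by nlinarith [c a]
        _ = _ := by
          rw [Finset.sum_add_distrib, Finset.sum_add_distrib, ← Finset.mul_sum, hg]
          simp only [Finset.sum_const, Finset.card_univ, nsmul_eq_mul, ← hN]
          ring
    rw [sw]
    refine (Finset.sum_le_sum fun y _ => h2 y).trans ?_
    rw [Finset.sum_add_distrib, ← Finset.mul_sum]
    simp only [Finset.sum_const, Finset.card_univ, nsmul_eq_mul, Fintype.card_pi,
      Finset.prod_const, Fintype.card_fin, Nat.cast_pow, ← hN]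
    have := mul_le_mul_of_nonneg_left h1 N0.le
    push_cast
    rw [pow_succ]
    linarith

lemma near {κ : Type} [Fintype κ] [Nonempty κ] {a : ℕ} (F : Finset (Fin a → κ))
    (hF : (Fintype.card κ : ℝ) ^ a ≤ 4 * #F) : ∃ N : (Fin a → κ) → Fin a → κ, (∀ x, N x ∈ F) ∧
      ∑ x, (hammingDist x (N x) : ℝ) ≤ 2 * √a * (Fintype.card κ : ℝ) ^ a := by
  have K : (0 : ℝ) < (Fintype.card κ : ℝ) ^ a := by have := Fintype.card_pos (α := κ); positivity
  have ne : F.Nonempty := card_pos.1 (by exact_mod_cast (show (0 : ℝ) < #F by linarith))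
  choose N h1 h2 using fun x => F.exists_min_image (hammingDist x) ne
  refine ⟨N, h1, ?_⟩
  obtain ⟨μ, hμ⟩ : ∃ μ, ∑ x, (hammingDist x (N x) : ℝ) = μ * (Fintype.card κ : ℝ) ^ a :=
    ⟨_, (div_mul_cancel₀ _ K.ne').symm⟩
  have v := var a (fun x => hammingDist x (N x)) (fun x i b => by
    have a1 := h2 x _ (h1 (Function.update x i b))
    have a2 := hammingDist_triangle x (Function.update x i b) (N (Function.update x i b))
    have a3 : hammingDist x (Function.update x i b) ≤ 1 :=
      card_le_one.2 fun j hj k hk => by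
        have : ∀ j, x j ≠ Function.update x i b j → j = i := fun j hj => by
          by_contra h; simp [h] at hj
        rw [this j (mem_filter.1 hj).2, this k (mem_filter.1 hk).2]
    exact_mod_cast (by omega)) μ hμ
  have w := (card_nsmul_le_sum F (fun x => ((hammingDist x (N x) : ℝ) - μ) ^ 2) (μ ^ 2)
    fun x hx => by
      have := h2 x x hx
      rw [hammingDist_self, Nat.le_zero] at this
      simp [this]).trans ((sum_le_univ_sum_of_nonneg fun _ => sq_nonneg _).trans v)
  rw [nsmul_eq_mul] at w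
  rw [hμ]
  gcongr
  refine (abs_le_of_sq_le_sq' ?_ (by positivity)).2
  rw [mul_pow, Real.sq_sqrt (by positivity)]
  refine le_of_mul_le_mul_right ?_ K
  nlinarith [sq_nonneg μ]

lemma pick {B S : Type} [Fintype B] [AddCommGroup B] [Fintype S] {a : ℕ} (ha : 0 < a)
    (hS : Fintype.card S ≤ 2 * Fintype.card B) (A : Finset ((Fin 8 × (Fin a → B)) × B))
    (hA : 4 * (Fintype.card B : ℝ) ^ a * Fintype.card B ≤ #A) :
    ∃ cost : (Fin a → B) → ℕ, ∑ x, (cost x : ℝ) ≤ 2 * √a * (Fintype.card B : ℝ) ^ a ∧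
      ∀ T : S → Fin a → B, ∃ col : S → (Fin 8 × (Fin a → B)) × B, (∀ s, col s ∈ A) ∧
        (fun s => (col s).1).Injective ∧ ∀ s, #{i | T s i ≠ (col s).1.2 i + (col s).2} ≤ cost (T s) := by
  let g : (Fin a → B) → Fin 8 × B → Fin 8 × (Fin a → B) := fun x c => (c.1, fun i => x i - c.2)
  let O : (Fin a → B) → Finset (Fin 8 × B) := fun x => {c | (g x c, c.2) ∈ A}
  have n0 : (0 : ℝ) < Fintype.card B := by exact_mod_cast Fintype.card_pos
  have s1 : (#A : ℝ) ≤ ∑ x, (#(O x) : ℝ) := by
    rw [← Nat.cast_sum, ← card_sigma, Nat.cast_le]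
    refine card_le_card_of_surjOn (fun z => (g z.1 z.2, z.2.2)) fun z hz =>
      ⟨⟨fun i => z.1.2 i + z.2, z.1.1, z.2⟩, ?_, ?_⟩ <;> simp [O, g]
    exact hz
  obtain ⟨N, h1, h2⟩ := near ({x | Fintype.card S ≤ #(O x)} : Finset (Fin a → B)) (by
    have := s1.trans (sum_le_sum (g := fun x => (if Fintype.card S ≤ #(O x) then (1 : ℝ) else 0) *
        (8 * Fintype.card B) + 2 * Fintype.card B) fun x _ => by
      have : (#(O x) : ℝ) ≤ 8 * Fintype.card B := by
        exact_mod_cast (card_le_univ _).trans (by simp)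
      split_ifs with h
      · linarith
      · exact_mod_cast (by omega))
    rw [sum_add_distrib, ← sum_mul, sum_boole] at this
    simp only [sum_const, card_univ, Fintype.card_pi, prod_const, Fintype.card_fin,
      nsmul_eq_mul, Nat.cast_pow] at this
    refine le_of_mul_le_mul_right ?_ n0
    linarith)
  refine ⟨fun x => hammingDist x (N x), h2, fun T => ?_⟩
  obtain ⟨f, f1, f2⟩ := (all_card_le_biUnion_card_iff_exists_injective
    fun s => (O (N (T s))).image (g (N (T s)))).1 fun s => by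
      rcases s.eq_empty_or_nonempty with rfl | ⟨i, hi⟩
      · simp
      refine (card_le_univ _).trans (((mem_filter.1 (h1 (T i))).2.trans ?_).trans
        (card_le_card (subset_biUnion_of_mem _ hi)))
      refine (card_image_of_injective _ fun c c' h => ?_).ge
      simp only [g, Prod.mk.injEq] at h
      exact Prod.ext h.1 (sub_right_injective (congrFun h.2 ⟨0, ha⟩))
  choose c c1 c2 using fun s => mem_image.1 (f2 s)
  refine ⟨fun s => (f s, (c s).2), fun s => by simpa only [c2 s] using (mem_filter.1 (c1 s)).2, f1, fun s => ?_⟩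
  simp [← c2, g, hammingDist]

lemma seq {Zn Θ C L : Type} [Fintype Zn] (loc : Zn → Θ → L) (pk : Zn → Finset C → L → Finset C)
    (w : ℕ) (hw : ∀ z Y l, #(pk z Y l) ≤ w) : ∃ Y : Zn → Θ → Finset C,
      (∀ z θ, #(Y z θ) ≤ w * Fintype.card Zn) ∧
      (∀ θ z z', z ≠ z' → pk z' (Y z' θ) (loc z' θ) ⊆ Y z θ ∨ pk z (Y z θ) (loc z θ) ⊆ Y z' θ) ∧
      ∀ z θ θ', (∀ z' ≠ z, loc z' θ' = loc z' θ) → Y z θ' = Y z θ := by
  let e := Fintype.equivFin Zn
  let U : Θ → ℕ → Finset C := fun θ k => k.rec ∅ fun k Y =>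
    if h : k < Fintype.card Zn then Y ∪ pk (e.symm ⟨k, h⟩) Y (loc (e.symm ⟨k, h⟩) θ) else Y
  have U1 : ∀ θ k, U θ (k + 1) = if h : k < Fintype.card Zn then
      U θ k ∪ pk (e.symm ⟨k, h⟩) (U θ k) (loc (e.symm ⟨k, h⟩) θ) else U θ k := fun _ _ => rfl
  have c : ∀ θ k, #(U θ k) ≤ w * k := fun θ k => by
    induction k with
    | zero => simp [U]
    | succ k ih =>
      rw [U1]
      split_ifs
      · exact (card_union_le _ _).trans (by rw [mul_add_one]; exact add_le_add ih (hw _ _ _))
      · nlinarith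
  have mo : ∀ θ, Monotone (U θ) := fun θ => monotone_nat_of_le_succ fun k => by
    rw [U1]; split_ifs <;> simp
  have k1 : ∀ θ z z', e z' < e z → pk z' (U θ (e z')) (loc z' θ) ⊆ U θ (e z) := fun θ z z' h => by
    refine subset_trans ?_ (mo θ (Nat.succ_le_of_lt h))
    rw [U1, dif_pos (e z').2]; simp
  refine ⟨fun z θ => U θ (e z), fun z θ => (c _ _).trans (by gcongr; exact (e z).2.le),
    fun θ z z' h => ?_, fun z θ θ' h => ?_⟩
  · rcases lt_or_gt_of_ne (e.injective.ne h) with h | h
    exacts [Or.inr (k1 _ _ _ h), Or.inl (k1 _ _ _ h)]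
  · have : ∀ k ≤ (e z).val, U θ' k = U θ k := fun k hk => by
      induction k with
      | zero => rfl
      | succ k ih =>
        rw [U1, U1, ih (by omega)]
        split_ifs with h'
        · rw [h _ fun h'' => by rw [← h''] at hk; simp at hk]
        · rfl
    exact this _ le_rfl

end Pool.Agent.H.MP_3e3c2c_co
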