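import Pool.Agent.H.MP_3e3c2c_co.A
import Pool.Agent.H.MP_3e3c2c_co.B

namespace Pool.Agent.H.MP_3e3c2c_co

open Finset Classical

abbrev BB (p : ℕ) := (ZMod p × ZMod p) × ZMod p
abbrev Ba (p d : ℕ) := Z p d × ZMod p × ZMod p
abbrev Om (p d a : ℕ) := Fin a × Ba p d × ZMod p
abbrev Co (p a : ℕ) := ZMod p × (Fin 8 × (Fin a → BB p))
abbrev La (p d : ℕ) := Z p d × BB p

variable {p d a : ℕ} [Fact p.Prime]

def lab (c : Co p a) (ω : Om p d a) : La p d := (zn c.1 ω.2.1, (ω.2.1.2, ω.2.2) - c.2.2 ω.1)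

def pt (γ : ZMod p) (z : Z p d) (β : ZMod p × ZMod p) : Ba p d := (z - (γ * β.2) • cv β.1, β)

@[simp] lemma zn_pt (γ : ZMod p) (z : Z p d) (β) : zn γ (pt γ z β) = z := by simp [zn, pt]

lemma posn (E : Finset (ZMod p × Z p d)) (ω : Ba p d) : ∃ f : ZMod p × Fin 2 → ZMod p,
    p ≤ 2 * #{γ | (γ, zn γ ω) ∉ E} → ∀ φ, ∃ γ κ, (γ, zn γ ω) ∉ E ∧ f (γ, κ) = φ := by
  by_cases h : p ≤ 2 * #{γ | (γ, zn γ ω) ∉ E}
  · obtain ⟨g, hg⟩ := Function.Embedding.exists_of_card_le_finset (α := ZMod p)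
      (s := ({γ | (γ, zn γ ω) ∉ E} : Finset _) ×ˢ (univ : Finset (Fin 2))) (by simp; omega)
    refine ⟨Function.invFun g, fun _ φ => ⟨(g φ).1, (g φ).2, ?_, Function.leftInverse_invFun g.2 φ⟩⟩
    simpa using hg ⟨φ, rfl⟩
  · exact ⟨fun _ => 0, fun h' => absurd h' h⟩

set_option synthInstance.maxSize 4000 in
theorem core (ha : 0 < a) (hd : d + 2 = 3 * a) (D : Finset (Co p a × La p d))
    (hD : 16 * #D ≤ Fintype.card (Co p a) * Fintype.card (La p d)) :
    ∃ S : Co p a → Option (La p d), (∀ c l, S c = some l → (c, l) ∉ D) ∧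
      (#{ω : Om p d a | ∀ c, S c ≠ some (lab c ω)} : ℝ) ≤
        (4 / √a + 16 * (1 + d) / p) * Fintype.card (Om p d a) := by
  have P : (0 : ℝ) < p := by exact_mod_cast (Fact.out : p.Prime).pos
  have P1 : 0 < p := (Fact.out : p.Prime).pos
  have cB : Fintype.card (BB p) = p ^ 3 := by simp [pow_succ]
  have na : (p ^ 3) ^ a = p ^ d * p ^ 2 := by rw [← pow_mul, ← hd, pow_add]
  have nr : ((p : ℝ) ^ 3) ^ a = p ^ d * p ^ 2 := by exact_mod_cast na
  let dz : ZMod p × Z p d → Finset ((Fin 8 × (Fin a → BB p)) × BB p) :=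
    fun k => {c | ((k.1, c.1), (k.2, c.2)) ∈ D}
  let E : Finset (ZMod p × Z p d) := {k | 2 * (p ^ d * p ^ 2) * p ^ 3 < #(dz k)}
  have hE : 4 * (#E : ℝ) ≤ p * p ^ d := by
    have h1 : ∑ k ∈ E, #(dz k) ≤ #D := by
      rw [← card_sigma]
      refine card_le_card_of_injOn (fun z => ((z.1.1, z.2.1), (z.1.2, z.2.2)))
        (fun z hz => (mem_filter.1 (mem_sigma.1 hz).2).2) ?_
      rintro ⟨⟨_, _⟩, _, _⟩ - ⟨⟨_, _⟩, _, _⟩ - h
      simp only [Prod.mk.injEq] at h
      obtain ⟨⟨rfl, rfl⟩, rfl, rfl⟩ := h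
      rfl
    have h2 := card_nsmul_le_sum E _ _ fun k hk => (mem_filter.1 hk).2.le
    simp only [Fintype.card_prod, Fintype.card_pi, prod_const, card_univ, Fintype.card_fin,
      ZMod.card, show p * p * p = p ^ 3 by ring, na, smul_eq_mul] at hD h2
    have : 4 * #E ≤ p * p ^ d := by
      refine le_of_mul_le_mul_right ?_ (show 0 < 8 * (p ^ d * p ^ 2) * p ^ 3 by positivity)
      nlinarith
    exact_mod_cast this
  choose pos hpos using posn E
  let T : ZMod p → Z p d → (ZMod p × Z p d × Fin a → ZMod p × ZMod p) × (Fin a × Ba p d → ZMod p) →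
      (ZMod p × ZMod p) × Fin 2 → Fin a → BB p := fun γ z θ s i => (s.1 + θ.1 (γ, z, i),
    pos (pt γ z (s.1 + θ.1 (γ, z, i))) (γ, s.2) + θ.2 (i, pt γ z (s.1 + θ.1 (γ, z, i))))
  have H : ∀ γ z (Y : Finset (Fin 8 × (Fin a → BB p))), ∃ (cost : (Fin a → BB p) → ℕ)
      (col : ((ZMod p × ZMod p) × Fin 2 → Fin a → BB p) → (ZMod p × ZMod p) × Fin 2 →
        (Fin 8 × (Fin a → BB p)) × BB p), ∑ x, (cost x : ℝ) ≤ 2 * √a * (p ^ 3) ^ a ∧
      ((γ, z) ∉ E → #Y ≤ 2 * p ^ 2 * p ^ d → ∀ T, (∀ s, col T s ∉ dz (γ, z) ∧ (col T s).1 ∉ Y) ∧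
        (fun s => (col T s).1).Injective ∧
          ∀ s, #{i | T s i ≠ (col T s).1.2 i + (col T s).2} ≤ cost (T s)) := fun γ z Y => by
    by_cases h : (γ, z) ∉ E ∧ #Y ≤ 2 * p ^ 2 * p ^ d
    · obtain ⟨cost, h1, h2⟩ := pick (S := (ZMod p × ZMod p) × Fin 2) ha
        (by simp; nlinarith) (dz (γ, z) ∪ Y ×ˢ univ)ᶜ (by
          have a1 := card_add_card_compl (dz (γ, z) ∪ Y ×ˢ univ)
          have a2 := card_union_le (dz (γ, z)) (Y ×ˢ univ)
          have a3 : #(dz (γ, z)) ≤ 2 * (p ^ d * p ^ 2) * p ^ 3 := by simpa [E] using h.1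
          have a4 := Nat.mul_le_mul_right (p ^ 3) h.2
          rw [card_product, card_univ, cB] at a2
          simp only [Fintype.card_prod, Fintype.card_pi, prod_const, card_univ, Fintype.card_fin,
            ZMod.card, show p * p * p = p ^ 3 by ring, na] at a1
          rw [cB]
          exact_mod_cast (by rw [na]; nlinarith))
      choose col h2 using h2
      refine ⟨cost, col, by simpa only [cB, Nat.cast_pow] using h1, fun _ _ T =>
        ⟨fun s => by simpa using (h2 T).1 s, (h2 T).2.1, fun s => by convert (h2 T).2.2 s⟩⟩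
    · exact ⟨0, fun _ _ => default, by simp; positivity, fun h1 h2 => absurd ⟨h1, h2⟩ h⟩
  choose cost col H1 H2 using H
  choose Y Y1 Y2 Y3 using fun γ => seq (T γ) (fun z Y l => univ.image fun s => (col γ z Y l s).1)
    (2 * p ^ 2) fun z Y l => card_image_le.trans (by simp; nlinarith)
  have ex : ∀ γ z s, ∑ θ, (cost γ z (Y γ z θ) (T γ z θ s) : ℝ) ≤ ∑ _θ :
      (ZMod p × Z p d × Fin a → ZMod p × ZMod p) × (Fin a × Ba p d → ZMod p), 2 * √a :=
    fun γ z s => by
    let e : (Fin a → BB p) →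
        (ZMod p × Z p d × Fin a → ZMod p × ZMod p) × (Fin a × Ba p d → ZMod p) := fun x =>
      (fun k => if k.2.1 = z then (x k.2.2).1 else 0, fun k => if zn γ k.2 = z then (x k.1).2 else 0)
    refine le_of_mul_le_mul_right ?_ (show (0 : ℝ) < (p ^ 3) ^ a by positivity)
    calc _ = ∑ x : Fin a → BB p, ∑ θ, (cost γ z (Y γ z (θ + e x)) (T γ z (θ + e x) s) : ℝ) := by
          refine Eq.trans ?_ (sum_congr rfl fun x _ => (Equiv.sum_comp (Equiv.addRight (e x))
            fun θ => (cost γ z (Y γ z θ) (T γ z θ s) : ℝ)).symm)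
          simp only [sum_const, card_univ, Fintype.card_pi, prod_const, Fintype.card_fin, cB,
            nsmul_eq_mul]
          push_cast; ring
      _ ≤ _ := by
          rw [sum_comm, sum_mul]
          refine sum_le_sum fun θ _ => le_of_eq_of_le ?_ (H1 γ z (Y γ z θ))
          refine Eq.trans ?_ (Function.Bijective.sum_comp (e := fun x => T γ z (θ + e x) s)
            (Finite.injective_iff_bijective.1 fun x x' h => funext fun i => ?_)
            fun x => (cost γ z (Y γ z θ) x : ℝ))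
          · refine sum_congr rfl fun x _ => ?_
            rw [Y3 γ z θ (θ + e x) fun z' h => by funext s i; simp [T, e, h]]
          · have := congrFun h i
            simp only [T, e, Prod.fst_add, Pi.add_apply, if_true, Prod.snd_add, zn_pt,
              Prod.mk.injEq, add_right_inj] at this
            exact Prod.ext this.1 (by simpa [this.1] using this.2)
  obtain ⟨θ, -, hθ⟩ := exists_le_of_sum_le univ_nonempty
    (f := fun θ => ∑ γ, ∑ z, ∑ s, (cost γ z (Y γ z θ) (T γ z θ s) : ℝ))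
    (g := fun _ => ∑ _γ : ZMod p, ∑ _z : Z p d, ∑ _s : (ZMod p × ZMod p) × Fin 2, 2 * √a) (by
      rw [sum_comm, sum_comm (s := univ) (t := (univ : Finset (ZMod p)))]
      refine sum_le_sum fun γ _ => ?_
      rw [sum_comm, sum_comm (s := univ) (t := (univ : Finset (Z p d)))]
      refine sum_le_sum fun z _ => ?_
      rw [sum_comm, sum_comm (s := univ) (t := (univ : Finset ((ZMod p × ZMod p) × Fin 2)))]
      exact sum_le_sum fun s _ => ex γ z s)
  have G := fun γ z h => H2 γ z (Y γ z θ) h (by simpa using Y1 γ z θ) (T γ z θ)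
  let cl := fun γ z => col γ z (Y γ z θ) (T γ z θ)
  let R : Co p a → La p d → Prop := fun c l => (c.1, l.1) ∉ E ∧ ∃ s, cl c.1 l.1 s = (c.2, l.2)
  have Ru : ∀ c l l', R c l → R c l' → l = l' := by
    rintro ⟨γ, c⟩ ⟨z, j⟩ ⟨z', j'⟩ ⟨h, s, e⟩ ⟨h', s', e'⟩
    have e1 : (cl γ z s).1 = c := congrArg Prod.fst e
    have e2 : (cl γ z' s').1 = c := congrArg Prod.fst e'
    obtain rfl : z = z' := by
      by_contra n
      rcases Y2 γ θ z z' n with k | k
      · exact ((G γ z h).1 s).2 (k (mem_image.2 ⟨s', mem_univ _, e2.trans e1.symm⟩))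
      · exact ((G γ z' h').1 s').2 (k (mem_image.2 ⟨s, mem_univ _, e1.trans e2.symm⟩))
    obtain rfl : s = s' := (G γ z h).2.1 (e1.trans e2.symm)
    exact Prod.ext rfl (Prod.ext_iff.1 (e.symm.trans e')).2
  refine ⟨fun c => if h : ∃ l, R c l then some h.choose else none, fun c l h => ?_, ?_⟩
  · dsimp only at h
    split_ifs at h with h'
    obtain ⟨h1, s, h2⟩ := Option.some.inj h ▸ h'.choose_spec
    have := ((G _ _ h1).1 s).1
    rw [show col _ _ _ _ s = _ from h2] at this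
    simpa [dz] using this
  let W : Finset (Σ _ : ZMod p, Σ _ : Z p d, Σ _ : (ZMod p × ZMod p) × Fin 2, Fin a) :=
    univ.sigma fun γ => univ.sigma fun z => univ.sigma fun s => if (γ, z) ∈ E then ∅ else
      univ.filter fun i => T γ z θ s i ≠ (cl γ z s).1.2 i + (cl γ z s).2
  have w1 : (#W : ℝ) ≤ p * (p ^ d * (p ^ 2 * 2 * (2 * √a))) := by
    refine le_trans ?_ (hθ.trans_eq (by simp [sq]))
    simp only [W, card_sigma, Nat.cast_sum]
    refine sum_le_sum fun γ _ => sum_le_sum fun z _ => sum_le_sum fun s _ => ?_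
    split_ifs with h
    · simp
    · exact_mod_cast (G γ z h).2.2 s
  have w2 := bad E hE
  refine le_trans (Nat.cast_le.2 ((card_le_card (t := W.image (fun k => (k.2.2.2,
      pt k.1 k.2.1 (T k.1 k.2.1 θ k.2.2.1 k.2.2.2).1, (T k.1 k.2.1 θ k.2.2.1 k.2.2.2).2)) ∪
      univ ×ˢ (univ.filter fun ω => 2 * #{γ | (γ, zn γ ω) ∉ E} < p) ×ˢ univ) ?_).trans ((card_union_le _ _).trans
        (add_le_add_left card_image_le _)))) ?_
  · rintro ⟨i, ω, φ⟩ h
    rw [mem_union, or_iff_not_imp_right]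
    intro n
    obtain ⟨γ, κ, h1, h2⟩ := hpos ω (by simpa using n) (φ - θ.2 (i, ω))
    have e1 : pt γ (zn γ ω) ω.2 = ω := by simp [pt, zn]
    have e2 : T γ (zn γ ω) θ (ω.2 - θ.1 (γ, zn γ ω, i), κ) i = (ω.2, φ) := by simp [T, e1, h2]
    refine mem_image.2 ⟨⟨γ, zn γ ω, (ω.2 - θ.1 (γ, zn γ ω, i), κ), i⟩, ?_, by simp [e1, e2]⟩
    simp only [W, mem_sigma, mem_univ, true_and, if_neg h1, mem_filter, e2]
    intro e3
    set c := cl γ (zn γ ω) (ω.2 - θ.1 (γ, zn γ ω, i), κ) with hc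
    have r : R (γ, c.1) (lab (γ, c.1) (i, ω, φ)) := ⟨h1, _, hc.symm.trans (Prod.ext rfl (by simp [lab, e3]))⟩
    refine (mem_filter.1 h).2 (γ, c.1) ?_
    have r' : ∃ l, R (γ, c.1) l := ⟨_, r⟩
    exact (dif_pos r').trans (congrArg some (Ru _ _ _ r'.choose_spec r))
  have sa : 0 < √(a : ℝ) := Real.sqrt_pos.2 (by exact_mod_cast ha)
  have sb : (a : ℝ) = √a * √a := (Real.mul_self_sqrt (by positivity)).symm
  simp only [card_product, card_univ, Fintype.card_prod, Fintype.card_pi, prod_const,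
    Fintype.card_fin, ZMod.card]
  push_cast
  rw [add_mul]
  refine add_le_add (w1.trans_eq ?_) ((mul_le_mul_of_nonneg_left w2 (by positivity)).trans_eq ?_)
  · rw [div_mul_eq_mul_div, eq_div_iff sa.ne']
    linear_combination (-4 * p ^ d * p ^ 3 : ℝ) * sb
  · field_simp

end Pool.Agent.H.MP_3e3c2c_co
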