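import Pool.Agent.H.MP_3e3c2c_co.C

namespace Pool.Agent.H.MP_3e3c2c_co

open Finset Classical

/-- the edges of `G` of colour `c` -/
def colG {V C : Type} (G : SimpleGraph V) (χ : Sym2 V → C) (c : C) : SimpleGraph V where
  Adj x y := G.Adj x y ∧ χ s(x, y) = c
  symm := ⟨fun _ _ h => ⟨h.1.symm, Sym2.eq_swap ▸ h.2⟩⟩
  loopless := ⟨fun _ h => h.1.ne rfl⟩

lemma gr {V C X : Type} [Nonempty C] (L : C → V → X) : ∃ (G : SimpleGraph V) (χ : Sym2 V → C),
    (∀ v w i, v ≠ w → L i v = L i w → G.Adj v w) ∧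
      ∀ c x y, (colG G χ c).Reachable x y → L c x = L c y := by
  refine ⟨SimpleGraph.fromRel fun v w => ∃ i, L i v = L i w,
    fun e => Classical.epsilon fun i => ∀ x ∈ e, ∀ y ∈ e, L i x = L i y,
    fun v w i h1 h2 => ⟨h1, Or.inl ⟨i, h2⟩⟩, ?_⟩
  rintro c x y ⟨w⟩
  induction w with
  | nil => rfl
  | @cons u v _ h _ ih =>
    refine Eq.trans ?_ ih
    obtain ⟨⟨-, h⟩, rfl⟩ := h
    refine Classical.epsilon_spec (p := fun i => ∀ x ∈ s(u, v), ∀ y ∈ s(u, v), L i x = L i y) ?_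
      _ (by simp) _ (by simp)
    rcases h with ⟨i, h⟩ | ⟨i, h⟩ <;> exact ⟨i, by simp [h]⟩

def Hard (r : ℕ) (δ : ℝ) (t : ℕ) : Prop := ∀ N, ∃ n ≥ N, ∃ (G : SimpleGraph (Fin n))
  (χ : Sym2 (Fin n) → Fin r), (∀ v, (1 - δ) * n ≤ (G.neighborSet v).ncard) ∧
    ∀ (k : ℕ) (P : Fin k → Set (Fin n)), (∀ i, ∃ c, ∀ x ∈ P i, ∀ y ∈ P i,
      (colG G χ c).Reachable x y) → (∀ v, ∃ i, v ∈ P i) → t < k

lemma toG {C Λ Ω : Type} [Fintype C] [Fintype Λ] [Fintype Ω] [Nonempty C] [Nonempty Ω]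
    (lab : C → Ω → Λ) (t : ℕ) (δ : ℝ) (h0 : 0 < δ) (h1 : δ < 1)
    (H : ∀ D : Finset (C × Λ), #D ≤ t → ∃ S : C → Option Λ, (∀ c l, S c = some l → (c, l) ∉ D) ∧
      (#{ω | ∀ c, S c ≠ some (lab c ω)} : ℝ) ≤ δ / 2 * Fintype.card Ω) :
    Hard (Fintype.card C + 1) δ t := by
  intro N
  let Sp := {S : C → Λ ⊕ Fin (t + 1) //
    (#{ω | ∀ c, S c ≠ .inl (lab c ω)} : ℝ) ≤ δ / 2 * Fintype.card Ω}
  obtain ⟨M, hM⟩ := exists_nat_ge (max (N : ℝ) (2 * (Fintype.card Sp + 1) / δ))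
  rw [max_le_iff, div_le_iff₀ h0, Nat.cast_le] at hM
  let e := (Fintype.equivFin ((Ω × Fin M) ⊕ Sp)).symm
  let er := (Fintype.equivFinOfCardEq (Fintype.card_option (α := C))).symm
  let L : Option C → (Ω × Fin M) ⊕ Sp → (Λ ⊕ Fin (t + 1)) ⊕ Option Sp := fun i v =>
    i.elim (.inr v.getRight?) fun c => .inl (v.elim (fun ω => .inl (lab c ω.1)) fun S => S.1 c)
  obtain ⟨G, χ, g1, g2⟩ := gr fun i v => L (er i) (e v)
  have o1 : 1 ≤ Fintype.card Ω := Fintype.card_pos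
  have cn : Fintype.card ((Ω × Fin M) ⊕ Sp) = Fintype.card Ω * M + Fintype.card Sp := by simp
  refine ⟨_, by rw [cn]; nlinarith [hM.1], G, χ, fun v => ?_, fun k P hP hc => ?_⟩
  · obtain ⟨U, u1, u2⟩ : ∃ U : Finset Ω, (#U : ℝ) ≤ δ / 2 * Fintype.card Ω ∧
        ∀ ω ∉ U, ∀ m, ∃ i, L i (e v) = L i (.inl (ω, m)) := by
      rcases e v with ω | S
      · exact ⟨∅, by simp; positivity, fun _ _ _ => ⟨none, rfl⟩⟩
      · refine ⟨_, S.2, fun ω h m => ?_⟩
        obtain ⟨c, hc⟩ : ∃ c, S.1 c = .inl (lab c ω) := by simpa using h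
        exact ⟨some c, congrArg Sum.inl hc⟩
    have a1 : ((((Uᶜ ×ˢ univ).image fun z => e.symm (.inl z)).erase v : Finset _) : Set _) ⊆
        G.neighborSet v := fun w hw => by
      obtain ⟨w1, w2⟩ := mem_erase.1 hw
      obtain ⟨⟨ω, m⟩, z1, rfl⟩ := mem_image.1 w2
      obtain ⟨i, hi⟩ := u2 ω (by simpa using z1) m
      exact g1 _ _ (er.symm i) w1.symm (by simpa using hi)
    have a2 := Set.ncard_le_ncard a1 (Set.toFinite _)
    rw [Set.ncard_coe_finset] at a2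
    have a3 := (pred_card_le_card_erase.trans a2)
    rw [card_image_of_injective _ fun _ _ h => Sum.inl_injective (e.symm.injective h), card_product,
      card_univ, Fintype.card_fin] at a3
    have a4 : (#Uᶜ : ℝ) * M ≤ (G.neighborSet v).ncard + 1 := by exact_mod_cast (by omega)
    have a5 : (#U : ℝ) + #Uᶜ = Fintype.card Ω := by exact_mod_cast card_add_card_compl U
    have a6 : (1 : ℝ) ≤ Fintype.card Ω := by exact_mod_cast o1
    have a7 : (0 : ℝ) ≤ M := by positivity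
    have a8 : (0 : ℝ) ≤ Fintype.card Sp := by positivity
    rw [show ((Fintype.card ((Ω × Fin M) ⊕ Sp) : ℕ) : ℝ) = Fintype.card Ω * M + Fintype.card Sp by
      exact_mod_cast cn]
    nlinarith [mul_le_mul_of_nonneg_right u1 a7, mul_le_mul_of_nonneg_left a6 (mul_nonneg a7 h0.le),
      hM.2]
  by_contra hk
  obtain ⟨c0⟩ := ‹Nonempty C›
  have : ∀ i, ∃ z : C × (Λ ⊕ Fin (t + 1)), ∀ S : Sp, e.symm (.inr S) ∈ P i → S.1 z.1 = z.2 :=
    fun i => by
    by_cases h : ∃ S : Sp, e.symm (.inr S) ∈ P i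
    · obtain ⟨S0, h0⟩ := h
      obtain ⟨c, hc⟩ := hP i
      have k := fun S h => g2 _ _ _ (hc (e.symm (.inr S)) h _ h0)
      simp only [Equiv.apply_symm_apply] at k
      rcases hh : er c with _ | c' <;> rw [hh] at k
      · exact ⟨(c0, S0.1 c0), fun S h => by rw [show S = S0 by simpa [L] using k S h]⟩
      · exact ⟨(c', S0.1 c'), fun S h => by simpa [L] using k S h⟩
    · exact ⟨(c0, .inr 0), fun S h' => absurd ⟨S, h'⟩ h⟩
  choose z hz using this
  have z1 : #(univ.image z) ≤ t := card_image_le.trans (by simpa using hk)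
  obtain ⟨S, s1, s2⟩ := H {x | (x.1, .inl x.2) ∈ univ.image z} (le_trans (card_le_card_of_injOn
    (fun x => (x.1, .inl x.2)) (fun x hx => (mem_filter.1 hx).2)
      fun x _ y _ h => by simpa [Prod.ext_iff] using h) z1)
  have : ∀ c, ∃ j, (c, Sum.inr j) ∉ univ.image z := fun c => by
    by_contra h
    push Not at h
    have := card_le_card_of_injOn (s := univ) (fun j => (c, Sum.inr j)) (fun j _ => h j)
      fun x _ y _ h => by simpa using h
    simp at this; omega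
  choose j hj using this
  obtain ⟨i, hi⟩ := hc (e.symm (.inr ⟨fun c => (S c).elim (.inr (j c)) .inl, by
    refine le_trans (Nat.cast_le.2 (card_le_card fun ω h => ?_)) s2
    exact mem_filter.2 ⟨mem_univ _, fun c e => (mem_filter.1 h).2 c (by simp [e])⟩⟩))
  have := hz i _ hi
  have m : ((z i).1, (z i).2) ∈ univ.image z := mem_image_of_mem _ (mem_univ i)
  rw [← this] at m
  rcases hh : S (z i).1 with _ | l <;> simp only [hh, Option.elim] at m
  · exact hj _ m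
  · exact s1 _ _ hh (mem_filter.2 ⟨mem_univ _, m⟩)

theorem main (K : ℝ) (hK : 0 < K) : ∃ (r : ℕ) (δ : ℝ) (t : ℕ), 2 ≤ r ∧ 0 < δ ∧ δ < 1 / 2 ∧
    K * r * ⌈r / Real.log (1 / δ)⌉ ≤ t ∧ Hard r δ t := by
  set δ := Real.exp (-(1024 * K + 1)) with hδ
  have h0 : 0 < δ := Real.exp_pos _
  have h1 : δ < 1 / 2 := by
    have := Real.add_one_lt_exp (show 1024 * K + 1 ≠ 0 by positivity)
    rw [hδ, Real.exp_neg, one_div]
    exact inv_strictAnti₀ (by norm_num) (by linarith)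
  obtain ⟨a, ha⟩ := exists_nat_gt ((16 / δ) ^ 2)
  have a0 : 0 < a := by exact_mod_cast (show (0 : ℝ) < a from lt_of_le_of_lt (by positivity) ha)
  obtain ⟨b, hb⟩ := exists_nat_gt (max (192 * a / δ) (64 * K))
  obtain ⟨p, hp, pp⟩ := Nat.exists_infinite_primes b
  haveI := Fact.mk pp
  have hp' : (b : ℝ) ≤ p := by exact_mod_cast hp
  rw [max_lt_iff, div_lt_iff₀ h0] at hb
  obtain ⟨d, hd⟩ : ∃ d, d + 2 = 3 * a := ⟨3 * a - 2, by omega⟩
  obtain ⟨m, hm⟩ : ∃ m, m = p * (p ^ 3) ^ a := ⟨_, rfl⟩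
  have c1 : Fintype.card (Co p a) = 8 * m := by simp [hm, show p * p * p = p ^ 3 by ring]; ring
  have c2 : Fintype.card (La p d) = m := by simp [hm, ← pow_mul, ← hd]; ring
  have pm : p ≤ m := hm ▸ Nat.le_mul_of_pos_right _ (by have := pp.pos; positivity)
  have p2 := pp.two_le
  have P : (0 : ℝ) < p := by positivity
  haveI : Nonempty (Fin a) := ⟨⟨0, a0⟩⟩
  refine ⟨8 * m + 1, δ, m * m / 2, by omega, h0, h1, ?_, c1 ▸ toG (lab (p := p) (d := d) (a := a))
    _ δ h0 (by linarith) fun D hD => ?_⟩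
  · have m1 : 64 * K < m := by have : (p : ℝ) ≤ m := by exact_mod_cast pm
                               linarith [hb.2]
    have m2 : (2 : ℝ) ≤ m := by exact_mod_cast p2.trans pm
    have t1 : (m : ℝ) * m ≤ 2 * (m * m / 2 : ℕ) + 1 := by exact_mod_cast (by omega)
    rw [one_div, Real.log_inv, hδ, Real.log_exp, neg_neg]
    have := (Int.ceil_lt_add_one (((8 * m + 1 : ℕ) : ℝ) / (1024 * K + 1))).le
    have q : K * (((8 * m + 1 : ℕ) : ℝ) / (1024 * K + 1)) ≤ 9 * m / 1024 := by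
      rw [← mul_div_assoc, div_le_div_iff₀ (by positivity) (by positivity)]
      push_cast; nlinarith
    calc _ ≤ K * (8 * m + 1 : ℕ) * (((8 * m + 1 : ℕ) : ℝ) / (1024 * K + 1) + 1) := by gcongr
      _ = (8 * m + 1 : ℕ) * (K * (((8 * m + 1 : ℕ) : ℝ) / (1024 * K + 1)) + K) := by ring
      _ ≤ (9 * m) * (9 * m / 1024 + m / 64) := by
        gcongr
        · push_cast; linarith
        · linarith
      _ ≤ _ := by nlinarith
  · obtain ⟨S, s1, s2⟩ := core a0 hd D (by rw [c1, c2]; nlinarith [Nat.div_mul_le_self (m * m) 2])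
    refine ⟨S, s1, le_trans (by convert s2; rfl) ?_⟩
    gcongr
    have b1 : 16 / δ ≤ √a := Real.le_sqrt_of_sq_le ha.le
    have b2 : 4 / √a ≤ δ / 4 := by
      rw [div_le_iff₀ h0] at b1
      rw [div_le_iff₀ (Real.sqrt_pos.2 (by exact_mod_cast a0))]; linarith
    have b3 : 16 * (1 + d) / (p : ℝ) ≤ δ / 4 := by
      have : (d : ℝ) + 2 = 3 * a := by exact_mod_cast hd
      rw [div_le_iff₀ P]; nlinarith [hb.1]
    linarith

end Pool.Agent.H.MP_3e3c2c_co
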